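import Mathlib
import Pool.Agent.U610.AR.Real

/-! # Affine maps between invariant measures are rational

An atomless measure invariant under `×m` and a singular measure invariant under `×p, ×q` can only
be related, even on a small part, by an affine map with a rational slope and a rational intercept.
Consequently all but countably many affine images of any measure on the line are singular to all the
counterexamples to Furstenberg's conjecture at once. -/

set_option autoImplicit false

open MeasureTheory Filter Topology Set

namespace Pool.Agent.Results.MP_96e181_an.AffineRigidity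

/-- `ν` is a counterexample to Furstenberg's conjecture which is singular to Lebesgue measure: an
atomless probability measure on the circle, singular to Lebesgue measure and invariant under
`x ↦ p x` and `x ↦ q x` for some multiplicatively independent `p, q ≥ 2`. -/
def Exceptional (ν : Measure UnitAddCircle) : Prop :=
  IsProbabilityMeasure ν ∧ (∀ x, ν {x} = 0) ∧ ν ⟂ₘ (volume : Measure UnitAddCircle) ∧
    ∃ p q : ℕ, 2 ≤ p ∧ 2 ≤ q ∧ Irrational (Real.log (p : ℝ) / Real.log (q : ℝ)) ∧
      MeasurePreserving (fun x : UnitAddCircle => p • x) ν ν ∧
      MeasurePreserving (fun x : UnitAddCircle => q • x) ν ν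

/-- **Affine rigidity.**
Let `μ` be an atomless probability measure on the circle invariant under `×m` for some `m ≥ 2`,
and let `ν` be a probability measure, singular to Lebesgue measure and invariant under `×p` and
`×q`, `p, q` multiplicatively independent. If a nonzero finite measure `κ` on the line is moved to a
measure absolutely continuous with respect to `μ` by `x ↦ a x + b mod 1`, `a ≠ 0`, and to a measure
absolutely continuous with respect to `ν` by `x ↦ c x + d mod 1`, then the affine map taking
`a x + b` to `c x + d` has rational coefficients: `c = r a` and `d = r b + t` with `r, t` rational.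
Consequently, for EVERY finite measure `P` on the line and all but countably many `(a, b)`, the
image of `P` under `x ↦ a x + b mod 1` is singular to all the exceptional measures. -/
theorem result :
    (∀ (p q m : ℕ) (μ ν : Measure UnitAddCircle), 2 ≤ p → 2 ≤ q →
      Irrational (Real.log (p : ℝ) / Real.log (q : ℝ)) → 2 ≤ m →
      IsProbabilityMeasure μ → (∀ x, μ {x} = 0) →
      MeasurePreserving (fun x : UnitAddCircle => m • x) μ μ →
      IsProbabilityMeasure ν → ν ⟂ₘ (volume : Measure UnitAddCircle) →
      MeasurePreserving (fun x : UnitAddCircle => p • x) ν ν →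
      MeasurePreserving (fun x : UnitAddCircle => q • x) ν ν →
      ∀ (κ : Measure ℝ) (a b c d : ℝ), IsFiniteMeasure κ → κ ≠ 0 → a ≠ 0 →
        κ.map (fun x : ℝ => ((a * x + b : ℝ) : UnitAddCircle)) ≪ μ →
        κ.map (fun x : ℝ => ((c * x + d : ℝ) : UnitAddCircle)) ≪ ν →
        ∃ r t : ℚ, c = r * a ∧ d = r * b + t) ∧
    ∀ P : Measure ℝ, IsFiniteMeasure P →
      {u : ℝ × ℝ | ¬ ∀ ν : Measure UnitAddCircle, Exceptional ν →
        (P.map fun x : ℝ => ((u.1 * x + u.2 : ℝ) : UnitAddCircle)) ⟂ₘ ν}.Countable := by
  refine ⟨fun p q m μ ν hp hq hirr hm hμ hna hμm hν hs hνp hνq => ?_, ?_⟩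
  · intro κ a b c d hκ hκ0 ha h1 h2
    exact Pool.Agent.U610.AR.rigid hp hq hirr hνp hνq hs hna hm hμm hκ0 ha h1 h2
  · intro P hP
    refine (Pool.Agent.U610.AR.countable_images P).mono fun u hu => ?_
    have hu' : ¬ ∀ ν : Measure UnitAddCircle, Exceptional ν →
        (P.map fun x : ℝ => ((u.1 * x + u.2 : ℝ) : UnitAddCircle)) ⟂ₘ ν := hu
    push Not at hu'
    obtain ⟨ν, hν, h⟩ := hu'
    exact ⟨ν, hν, h⟩

end Pool.Agent.Results.MP_96e181_an.AffineRigidity
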