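import Mathlib
import Pool.Agent.Results.MP_96e181_an.FourierGrowth

set_option autoImplicit false

/-!
# Atomless `×p, ×q` invariant measures: all dilates are spread, or the measure is thin

Let `μ` be an atomless probability measure on the circle, invariant under `x ↦ p x` and `x ↦ q x`.
EITHER all the dilates `n μ`, `n ≠ 0`, charge every nonempty open set `U`, with the mass at least
`c (log |n|) ^ (-κ)` (with `c = c (U, κ) > 0`; for `p, q` coprime and more generally for `p, q`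
composed of two coprime numbers for EVERY `κ > 0`); in particular `1 - |μ^(n)| ≥ c (log |n|) ^ (-κ)`
for all `n ≠ 0`;
OR `μ` is carried by the set of the `x` such that `‖m k x‖ ≤ exp (-(log (m k)) ^ k)` for all large `k`,
for ONE increasing sequence `m k` of integers. This set is contained in a subgroup of the circle which
consists of rational and Liouville numbers, and its Hausdorff measure vanishes for all the gauge
functions `exp (-(log (1 / r)) ^ θ)`, `θ > 0`.

Proof. By the theorem of the starting file `FourierGrowth`, applied to the dilates `n μ`, which are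
invariant as well, the mass of the points `x` for which `n x` is not `exp (-t)`-close to the finite set
of the points whose orbit avoids `U` is at most `C t ^ κ μ {n x ∈ U}`. If this is small with
`t = (log |n|) ^ B` for infinitely many `n`, the lemma of Borel and Cantelli gives the second
alternative.
-/

open Filter Topology MeasureTheory Set

namespace Pool.Agent.Results.MP_96e181_an.NonRigidOrThin

/-- All the dilates `n μ`, `n ≠ 0`, give to every nonempty open set `U` at least the mass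
`c (log (|n| + 2)) ^ (-κ)`, where `c > 0` depends only on `μ`, `κ` and `U`. -/
def Spread (μ : Measure UnitAddCircle) (κ : ℝ) : Prop :=
  ∀ U : Set UnitAddCircle, IsOpen U → U.Nonempty → ∃ c : ℝ, 0 < c ∧ ∀ n : ℤ, n ≠ 0 →
    c * Real.log (|(n : ℝ)| + 2) ^ (-κ) ≤ μ.real {x | n • x ∈ U}

/-- There is a strictly increasing sequence `m k` of integers such that for `μ`-almost every `x` we
have `‖m k x‖ ≤ exp (-(log (m k)) ^ (B k))` for all large `k`. -/
def Thin (μ : Measure UnitAddCircle) (B : ℕ → ℝ) : Prop :=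
  ∃ m : ℕ → ℕ, StrictMono m ∧ ∀ᵐ x ∂μ, ∀ᶠ k in atTop,
    ‖m k • x‖ ≤ Real.exp (-(Real.log (m k) ^ B k))

theorem seq_of {μ : Measure UnitAddCircle} [IsProbabilityMeasure μ] {e : ℕ → ℕ → ℝ}
    (h : ∀ k N : ℕ, ∀ ε : ℝ, 0 < ε → ∃ m, N ≤ m ∧ μ.real {x | e k m < ‖m • x‖} ≤ ε) :
    ∃ m : ℕ → ℕ, StrictMono m ∧ ∀ᵐ x ∂μ, ∀ᶠ k in atTop, ‖m k • x‖ ≤ e k (m k) := by
  have h' : ∀ k N : ℕ, ∃ m, N ≤ m ∧ μ.real {x | e k m < ‖m • x‖} ≤ (1 / 2 : ℝ) ^ k :=
    fun k N => h k N _ (by positivity)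
  choose F hF1 hF2 using h'
  let m : ℕ → ℕ := fun k => Nat.rec (F 0 0) (fun j r => F (j + 1) (r + 1)) k
  have hm0 : m 0 = F 0 0 := rfl
  have hms : ∀ k, m (k + 1) = F (k + 1) (m k + 1) := fun k => rfl
  have hmono : StrictMono m := by
    apply strictMono_nat_of_lt_succ
    intro k
    rw [hms]
    exact hF1 (k + 1) (m k + 1)
  have hb : ∀ k, μ.real {x | e k (m k) < ‖m k • x‖} ≤ (1 / 2 : ℝ) ^ k := by
    intro k
    cases k with
    | zero => rw [hm0]; exact hF2 0 0
    | succ k => rw [hms]; exact hF2 (k + 1) (m k + 1)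
  refine ⟨m, hmono, ?_⟩
  have hsum : (∑' k, μ {x | e k (m k) < ‖m k • x‖}) ≠ ⊤ := by
    have h1 : ∀ k, μ {x | e k (m k) < ‖m k • x‖} ≤ ENNReal.ofReal ((1 / 2 : ℝ) ^ k) := by
      intro k
      have h2 := hb k
      rw [Measure.real] at h2
      exact (ENNReal.le_ofReal_iff_toReal_le (measure_ne_top _ _) (by positivity)).2 h2
    refine ne_top_of_le_ne_top ?_ (ENNReal.tsum_le_tsum h1)
    rw [← ENNReal.ofReal_tsum_of_nonneg (fun k => by positivity)
      (summable_geometric_of_lt_one (by norm_num) (by norm_num))]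
    exact ENNReal.ofReal_ne_top
  have h3 := ae_eventually_notMem hsum
  filter_upwards [h3] with x hx
  filter_upwards [hx] with k hk
  simpa using hk

section

variable {p q : ℕ} {μ : Measure UnitAddCircle}

theorem mp_smul (n : ℤ) (h : MeasurePreserving (fun x : UnitAddCircle => p • x) μ μ) :
    MeasurePreserving (fun x : UnitAddCircle => p • x) (μ.map (fun x => n • x))
      (μ.map (fun x => n • x)) := by
  have hn : Measurable (fun x : UnitAddCircle => n • x) := (continuous_zsmul n).measurable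
  have hp : Measurable (fun x : UnitAddCircle => p • x) := (continuous_nsmul p).measurable
  refine ⟨hp, ?_⟩
  rw [Measure.map_map hp hn]
  have h1 : (fun x : UnitAddCircle => p • x) ∘ (fun x => n • x) =
      (fun x => n • x) ∘ (fun x => p • x) := by
    ext x
    simp only [Function.comp]
    rw [smul_comm]
  rw [h1, ← Measure.map_map hn hp, h.map_eq]

/-- the hypothesis on an open set `U`: the conclusion of `FourierGrowth` -/
def NC (p q : ℕ) (U : Set UnitAddCircle) (κ C : ℝ) : Prop :=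
  ∀ ν : Measure UnitAddCircle, IsProbabilityMeasure ν →
    MeasurePreserving (fun x : UnitAddCircle => p • x) ν ν →
    MeasurePreserving (fun x : UnitAddCircle => q • x) ν ν →
    ∀ t : ℝ, 1 ≤ t →
      ν.real {x | ∀ k : UnitAddCircle, (∀ i j : ℕ, (p ^ i * q ^ j) • k ∉ U) →
        Real.exp (-t) ≤ dist x k} ≤ C * t ^ κ * ν.real U

theorem tail [IsProbabilityMeasure μ]
    (hμp : MeasurePreserving (fun x : UnitAddCircle => p • x) μ μ)
    (hμq : MeasurePreserving (fun x : UnitAddCircle => q • x) μ μ)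
    {U : Set UnitAddCircle} (hU : IsOpen U) {d : ℕ} (hd : 1 ≤ d)
    (hdU : ∀ k : UnitAddCircle, (∀ i j : ℕ, (p ^ i * q ^ j) • k ∉ U) → d • k = 0)
    {κ C : ℝ} (hNC : NC p q U κ C) (n : ℤ) {t : ℝ} (ht : 1 ≤ t) :
    μ.real {x | d * Real.exp (-t) ≤ ‖(d * n.natAbs) • x‖} ≤
      C * t ^ κ * μ.real {x | n • x ∈ U} := by
  have hn : Measurable (fun x : UnitAddCircle => n • x) := (continuous_zsmul n).measurable
  have hprob : IsProbabilityMeasure (μ.map (fun x : UnitAddCircle => n • x)) :=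
    Measure.isProbabilityMeasure_map hn.aemeasurable
  have h1 := hNC (μ.map (fun x : UnitAddCircle => n • x)) hprob (mp_smul n hμp) (mp_smul n hμq) t ht
  have h2 : (μ.map (fun x : UnitAddCircle => n • x)).real U = μ.real {x | n • x ∈ U} := by
    rw [Measure.real, Measure.map_apply hn hU.measurableSet]
    rfl
  rw [h2] at h1
  refine le_trans ?_ h1
  have h3 : IsClosed {x : UnitAddCircle | ∀ k : UnitAddCircle,
      (∀ i j : ℕ, (p ^ i * q ^ j) • k ∉ U) → Real.exp (-t) ≤ dist x k} := by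
    simp only [Set.ofPred_forall]
    apply isClosed_iInter
    intro k
    apply isClosed_iInter
    intro _
    exact isClosed_le continuous_const (continuous_id.dist continuous_const)
  rw [Measure.real, Measure.real, Measure.map_apply hn h3.measurableSet]
  apply ENNReal.toReal_mono (measure_ne_top _ _)
  apply measure_mono
  intro x hx k hk
  by_contra hcon
  push Not at hcon
  have h4 : ‖(d * n.natAbs) • x‖ = ‖d • (n • x - k)‖ := by
    rw [smul_sub, hdU k hk, sub_zero, mul_smul]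
    rcases Int.natAbs_eq n with h | h
    · nth_rw 2 [h]
      rw [natCast_zsmul]
    · nth_rw 2 [h]
      rw [neg_smul, smul_neg, norm_neg, natCast_zsmul]
  have h5 : ‖d • (n • x - k)‖ ≤ d * dist (n • x) k := by
    rw [dist_eq_norm]
    exact norm_nsmul_le
  have h6 : (d : ℝ) * Real.exp (-t) ≤ ‖(d * n.natAbs) • x‖ := hx
  have hd' : (0 : ℝ) < d := by exact_mod_cast hd
  have h7 : (d : ℝ) * dist (n • x) k < d * Real.exp (-t) := mul_lt_mul_of_pos_left hcon hd'
  rw [h4] at h6
  linarith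

theorem pos_mass [IsProbabilityMeasure μ] (hat : ∀ x, μ {x} = 0)
    (hμp : MeasurePreserving (fun x : UnitAddCircle => p • x) μ μ)
    (hμq : MeasurePreserving (fun x : UnitAddCircle => q • x) μ μ)
    {U : Set UnitAddCircle} (hU : IsOpen U) {d : ℕ} (hd : 1 ≤ d)
    (hdU : ∀ k : UnitAddCircle, (∀ i j : ℕ, (p ^ i * q ^ j) • k ∉ U) → d • k = 0)
    {κ C : ℝ} (hNC : NC p q U κ C) (n : ℤ) (hn : n ≠ 0) :
    0 < μ.real {x | n • x ∈ U} := by
  rw [← not_le]
  intro hle
  have h0 : μ.real {x | n • x ∈ U} = 0 := le_antisymm hle measureReal_nonneg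
  have h1 : ∀ t : ℕ, μ {x | d * Real.exp (-((t : ℝ) + 1)) ≤ ‖(d * n.natAbs) • x‖} = 0 := by
    intro t
    have h2 := tail hμp hμq hU hd hdU hNC n (t := (t : ℝ) + 1) (by
      have : (0 : ℝ) ≤ t := Nat.cast_nonneg t
      linarith)
    rw [h0, mul_zero] at h2
    exact (measureReal_eq_zero_iff).1 (le_antisymm h2 measureReal_nonneg)
  have h2 : ∀ᵐ x ∂μ, ∀ t : ℕ, ‖(d * n.natAbs) • x‖ < d * Real.exp (-((t : ℝ) + 1)) := by
    rw [ae_all_iff]
    intro t
    rw [ae_iff]
    simpa only [not_lt] using h1 t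
  have h3 : ∀ᵐ x ∂μ, (d * n.natAbs) • x = 0 := by
    filter_upwards [h2] with x hx
    rw [← norm_le_zero_iff]
    have h4 : Tendsto (fun t : ℕ => (d : ℝ) * Real.exp (-((t : ℝ) + 1))) atTop (𝓝 (d * 0)) := by
      apply Tendsto.const_mul
      apply Real.tendsto_exp_neg_atTop_nhds_zero.comp
      exact tendsto_atTop_add_const_right _ _ tendsto_natCast_atTop_atTop
    rw [mul_zero] at h4
    exact ge_of_tendsto' h4 fun t => (hx t).le
  have : NullSingletonClass μ := ⟨hat⟩
  have h5 : 0 < d * n.natAbs := by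
    have := Int.natAbs_pos.2 hn
    positivity
  have h6 : μ {x : UnitAddCircle | (d * n.natAbs) • x = 0} = 0 :=
    (AddCircle.finite_torsion (1 : ℝ) h5).measure_zero μ
  have h7 : ∀ᵐ x ∂μ, (d * n.natAbs) • x ≠ 0 := by
    rw [ae_iff]
    simpa only [ne_eq, not_not] using h6
  obtain ⟨x, hx1, hx2⟩ := (h3.and h7).exists
  exact hx2 hx1

theorem fail_step [IsProbabilityMeasure μ] (hat : ∀ x, μ {x} = 0)
    (hμp : MeasurePreserving (fun x : UnitAddCircle => p • x) μ μ)
    (hμq : MeasurePreserving (fun x : UnitAddCircle => q • x) μ μ)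
    {U : Set UnitAddCircle} (hU : IsOpen U) {d : ℕ} (hd : 1 ≤ d)
    (hdU : ∀ k : UnitAddCircle, (∀ i j : ℕ, (p ^ i * q ^ j) • k ∉ U) → d • k = 0)
    {κ C κ' b : ℝ} (hκ : 0 < κ) (hC : 0 < C) (hNC : NC p q U κ C) (hb : 0 ≤ b)
    (hbk : κ * b ≤ κ')
    (hfail : ∀ c : ℝ, 0 < c → ∃ n : ℤ, n ≠ 0 ∧
      μ.real {x | n • x ∈ U} < c * Real.log (|(n : ℝ)| + 2) ^ (-κ'))
    (N : ℕ) {ε : ℝ} (hε : 0 < ε) :
    ∃ m : ℕ, N ≤ m ∧ μ.real {x | Real.exp (-(Real.log m ^ b)) < ‖m • x‖} ≤ ε := by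
  have hκ' : 0 ≤ κ' := le_trans (by positivity) hbk
  have hd1 : (1 : ℝ) ≤ d := by exact_mod_cast hd
  have hld : 0 ≤ Real.log d := Real.log_nonneg hd1
  -- a lower bound for small `n`
  obtain ⟨δ, hδ, hδ'⟩ : ∃ δ : ℝ, 0 < δ ∧ ∀ n : ℤ, n ≠ 0 → n.natAbs ≤ N →
      δ ≤ μ.real {x | n • x ∈ U} := by
    obtain ⟨S, hS⟩ : ∃ S : Finset ℤ, S = (Finset.Icc (-(N : ℤ)) N).filter (fun n => n ≠ 0) := ⟨_, rfl⟩
    have hmem : ∀ n : ℤ, n ≠ 0 → n.natAbs ≤ N → n ∈ S := by
      intro n h1 h2
      rw [hS, Finset.mem_filter, Finset.mem_Icc]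
      exact ⟨by omega, h1⟩
    rcases S.eq_empty_or_nonempty with he | hne
    · refine ⟨1, one_pos, fun n h1 h2 => ?_⟩
      have := hmem n h1 h2
      rw [he] at this
      exact absurd this (Finset.notMem_empty n)
    · obtain ⟨n0, h0, hmin⟩ := S.exists_min_image (fun n => μ.real {x | n • x ∈ U}) hne
      have hn0 : n0 ≠ 0 := by
        rw [hS, Finset.mem_filter] at h0
        exact h0.2
      exact ⟨_, pos_mass hat hμp hμq hU hd hdU hNC n0 hn0, fun n h1 h2 => hmin n (hmem n h1 h2)⟩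
  obtain ⟨K, hK⟩ : ∃ K : ℝ, K = (1 + Real.log d) ^ b + Real.log d + 1 := ⟨_, rfl⟩
  have hK0 : 0 < K := by
    rw [hK]
    positivity
  have hc : 0 < min δ (ε / (C * K ^ κ)) := lt_min hδ (by positivity)
  obtain ⟨n, hn, hlt⟩ := hfail _ hc
  obtain ⟨L, hL⟩ : ∃ L : ℝ, L = Real.log (|(n : ℝ)| + 2) := ⟨_, rfl⟩
  rw [← hL] at hlt
  have hn1 : 1 ≤ n.natAbs := Int.natAbs_pos.2 hn
  have hnabs : |(n : ℝ)| = (n.natAbs : ℝ) := by
    rw [Nat.cast_natAbs, Int.cast_abs]
  have hn1R : (1 : ℝ) ≤ |(n : ℝ)| := by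
    rw [hnabs]
    exact_mod_cast hn1
  have hL1 : 1 ≤ L := by
    rw [hL, Real.le_log_iff_exp_le (by linarith)]
    have := Real.exp_one_lt_d9
    linarith
  have hL0 : 0 < L := by linarith
  refine ⟨d * n.natAbs, ?_, ?_⟩
  · by_contra hcon
    have h1 : n.natAbs ≤ N := by nlinarith
    have h2 := hδ' n hn h1
    have h3 : min δ (ε / (C * K ^ κ)) * L ^ (-κ') ≤ δ * 1 := by
      apply mul_le_mul (min_le_left _ _) _ (by positivity) hδ.le
      exact Real.rpow_le_one_of_one_le_of_nonpos hL1 (by linarith)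
    linarith
  · obtain ⟨t, ht⟩ : ∃ t : ℝ, t = Real.log ((d * n.natAbs : ℕ) : ℝ) ^ b + Real.log d + 1 := ⟨_, rfl⟩
    have hm1 : (1 : ℝ) ≤ ((d * n.natAbs : ℕ) : ℝ) := by
      exact_mod_cast Nat.mul_pos hd hn1
    have hlm : 0 ≤ Real.log ((d * n.natAbs : ℕ) : ℝ) := Real.log_nonneg hm1
    have hlmb : 0 ≤ Real.log ((d * n.natAbs : ℕ) : ℝ) ^ b := Real.rpow_nonneg hlm b
    have ht1 : 1 ≤ t := by
      rw [ht]
      linarith
    have h1 := tail hμp hμq hU hd hdU hNC n ht1
    have h2 : (d : ℝ) * Real.exp (-t) ≤ Real.exp (-(Real.log ((d * n.natAbs : ℕ) : ℝ) ^ b)) := by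
      have h3 : (d : ℝ) = Real.exp (Real.log d) := (Real.exp_log (by linarith)).symm
      nth_rw 1 [h3]
      rw [← Real.exp_add]
      apply Real.exp_le_exp.2
      rw [ht]
      linarith
    have h3 : μ.real {x | Real.exp (-(Real.log ((d * n.natAbs : ℕ) : ℝ) ^ b)) <
        ‖(d * n.natAbs) • x‖} ≤ μ.real {x | d * Real.exp (-t) ≤ ‖(d * n.natAbs) • x‖} := by
      refine measureReal_mono ?_ (measure_ne_top _ _)
      intro x hx
      exact h2.trans (le_of_lt hx)
    refine h3.trans (h1.trans ?_)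
    have h4 : t ≤ K * L ^ b := by
      have e1 : Real.log ((d * n.natAbs : ℕ) : ℝ) ≤ (1 + Real.log d) * L := by
        rw [Nat.cast_mul, Real.log_mul (by linarith) (by
          have : (0:ℝ) < n.natAbs := by exact_mod_cast hn1
          linarith), ← hnabs]
        have e2 : Real.log |(n : ℝ)| ≤ L := by
          rw [hL]
          exact Real.log_le_log (by linarith) (by linarith)
        nlinarith
      have e2 : Real.log ((d * n.natAbs : ℕ) : ℝ) ^ b ≤ (1 + Real.log d) ^ b * L ^ b := by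
        rw [← Real.mul_rpow (by linarith) hL0.le]
        exact Real.rpow_le_rpow hlm e1 hb
      have e3 : 1 ≤ L ^ b := Real.one_le_rpow hL1 hb
      rw [ht, hK]
      nlinarith
    have h5 : t ^ κ ≤ K ^ κ * L ^ κ' := by
      calc t ^ κ ≤ (K * L ^ b) ^ κ := Real.rpow_le_rpow (by linarith) h4 hκ.le
        _ = K ^ κ * L ^ (κ * b) := by
          rw [Real.mul_rpow hK0.le (by positivity), ← Real.rpow_mul hL0.le, mul_comm b κ]
        _ ≤ K ^ κ * L ^ κ' := by
          apply mul_le_mul_of_nonneg_left _ (by positivity)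
          exact Real.rpow_le_rpow_of_exponent_le hL1 hbk
    have h6 : μ.real {x | n • x ∈ U} ≤ ε / (C * K ^ κ) * L ^ (-κ') :=
      hlt.le.trans (mul_le_mul_of_nonneg_right (min_le_right _ _) (by positivity))
    calc C * t ^ κ * μ.real {x | n • x ∈ U}
        ≤ C * (K ^ κ * L ^ κ') * (ε / (C * K ^ κ) * L ^ (-κ')) := by
          apply mul_le_mul _ h6 measureReal_nonneg (by positivity)
          exact mul_le_mul_of_nonneg_left h5 hC.le
      _ = ε * (L ^ κ' * L ^ (-κ')) := by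
          field_simp
      _ = ε := by
          rw [← Real.rpow_add hL0, add_neg_cancel, Real.rpow_zero, mul_one]

end

theorem fourier_of {μ : Measure UnitAddCircle} [IsProbabilityMeasure μ] {κ : ℝ}
    (h : Spread μ κ) : ∃ c : ℝ, 0 < c ∧ ∀ n : ℤ, n ≠ 0 →
      c * Real.log (|(n : ℝ)| + 2) ^ (-κ) ≤ 1 - ‖∫ x, (fourier n x : ℂ) ∂μ‖ := by
  have hcont : Continuous (fun y : UnitAddCircle => (fourier 1 y : ℂ).re) :=
    Complex.continuous_re.comp (map_continuous _)
  obtain ⟨c1, hc1, h1⟩ := h {y | 1 / 2 < (fourier 1 y : ℂ).re}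
    (isOpen_lt continuous_const hcont) ⟨0, by
      show 1 / 2 < (fourier 1 (0 : UnitAddCircle) : ℂ).re
      rw [fourier_eval_zero]
      norm_num⟩
  obtain ⟨c2, hc2, h2⟩ := h {y | (fourier 1 y : ℂ).re < -1 / 2}
    (isOpen_lt hcont continuous_const) ⟨((1 / 2 : ℝ) : UnitAddCircle), by
      show (fourier 1 ((1 / 2 : ℝ) : UnitAddCircle) : ℂ).re < -1 / 2
      rw [fourier_coe_apply]
      have e : 2 * (Real.pi : ℂ) * Complex.I * ((1 : ℤ) : ℂ) * ((1 / 2 : ℝ) : ℂ) / ((1 : ℝ) : ℂ) =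
          Real.pi * Complex.I := by
        push_cast
        ring
      rw [e, Complex.exp_pi_mul_I]
      norm_num⟩
  refine ⟨min c1 c2 / 8, by positivity, ?_⟩
  intro n hn
  obtain ⟨z, hz⟩ : ∃ z : ℂ, z = ∫ x, (fourier n x : ℂ) ∂μ := ⟨_, rfl⟩
  rw [← hz]
  obtain ⟨u, hu1, hu2⟩ : ∃ u : ℂ, ‖u‖ = 1 ∧ (star u * z).re = ‖z‖ := by
    rcases eq_or_ne z 0 with rfl | hz0
    · exact ⟨1, by simp, by simp⟩
    · refine ⟨z / ‖z‖, by
        rw [norm_div, Complex.norm_real, norm_norm, div_self (norm_ne_zero_iff.2 hz0)], ?_⟩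
      have e1 : star (z / (‖z‖ : ℂ)) * z = (‖z‖ : ℂ) := by
        rw [Complex.star_def, map_div₀, Complex.conj_ofReal, div_mul_eq_mul_div,
          mul_comm, Complex.mul_conj, Complex.normSq_eq_norm_sq]
        have : (‖z‖ : ℂ) ≠ 0 := by exact_mod_cast norm_ne_zero_iff.2 hz0
        push_cast
        field_simp
      rw [e1, Complex.ofReal_re]
  have hnf : ∀ x : UnitAddCircle, ‖(fourier n x : ℂ)‖ = 1 := fun x => by
    rw [fourier_apply]
    exact Circle.norm_coe _
  have hint : Integrable (fun x : UnitAddCircle => (fourier n x : ℂ)) μ :=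
    (map_continuous (fourier n)).integrable_of_hasCompactSupport (HasCompactSupport.of_compactSpace _)
  have hint1 : Integrable (fun x : UnitAddCircle => (star u * (fourier n x : ℂ)).re) μ :=
    (hint.const_mul _).re
  have hint2 : Integrable (fun x : UnitAddCircle => 1 - (star u * (fourier n x : ℂ)).re) μ :=
    (integrable_const _).sub hint1
  have h3 : ∫ x, (1 - (star u * (fourier n x : ℂ)).re) ∂μ = 1 - ‖z‖ := by
    rw [integral_sub (integrable_const _) hint1, integral_const, probReal_univ,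
      one_smul]
    congr 1
    have e1 := integral_re (𝕜 := ℂ) (hint.const_mul (star u))
    have e2 : ∫ x, (star u * (fourier n x : ℂ)).re ∂μ =
        (∫ x, star u * (fourier n x : ℂ) ∂μ).re := e1
    rw [e2, integral_const_mul, ← hz, hu2]
  -- the integrand
  have hkey : ∀ w : ℂ, ‖w‖ = 1 → (w.re - u.re) ^ 2 / 2 ≤ 1 - (star u * w).re := by
    intro w hw
    have e1 : w.re ^ 2 + w.im ^ 2 = 1 := by
      have := Complex.sq_norm w
      rw [hw, Complex.normSq_apply] at this
      nlinarith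
    have e2 : u.re ^ 2 + u.im ^ 2 = 1 := by
      have := Complex.sq_norm u
      rw [hu1, Complex.normSq_apply] at this
      nlinarith
    have e3 : (star u * w).re = u.re * w.re + u.im * w.im := by
      rw [Complex.star_def, Complex.mul_re, Complex.conj_re, Complex.conj_im]
      ring
    rw [e3]
    nlinarith [sq_nonneg (w.im - u.im)]
  have hnn : 0 ≤ᵐ[μ] fun x : UnitAddCircle => 1 - (star u * (fourier n x : ℂ)).re :=
    Eventually.of_forall fun x => le_trans (by positivity) (hkey _ (hnf x))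
  have hM := mul_meas_ge_le_integral_of_nonneg hnn hint2 (1 / 8)
  rw [h3] at hM
  have hf1 : ∀ x : UnitAddCircle, (fourier 1 (n • x) : ℂ) = fourier n x := fun x => by
    rw [fourier_apply, fourier_apply, one_smul]
  have hL : 0 ≤ Real.log (|(n : ℝ)| + 2) ^ (-κ) := by
    apply Real.rpow_nonneg
    apply Real.log_nonneg
    have := abs_nonneg (n : ℝ)
    linarith
  rcases le_or_gt 0 u.re with hu | hu
  · have h4 := h2 n hn
    have h5 : μ.real {x : UnitAddCircle | n • x ∈ {y | (fourier 1 y : ℂ).re < -1 / 2}} ≤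
        μ.real {x | (1 / 8 : ℝ) ≤ 1 - (star u * (fourier n x : ℂ)).re} := by
      refine measureReal_mono ?_ (measure_ne_top _ _)
      intro x hx
      have e1 : (fourier 1 (n • x) : ℂ).re < -1 / 2 := hx
      rw [hf1] at e1
      have e2 := hkey _ (hnf x)
      show (1 / 8 : ℝ) ≤ 1 - (star u * (fourier n x : ℂ)).re
      nlinarith
    have h6 : min c1 c2 / 8 * Real.log (|(n : ℝ)| + 2) ^ (-κ) ≤
        1 / 8 * (c2 * Real.log (|(n : ℝ)| + 2) ^ (-κ)) := by
      have := min_le_right c1 c2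
      nlinarith
    linarith
  · have h4 := h1 n hn
    have h5 : μ.real {x : UnitAddCircle | n • x ∈ {y | 1 / 2 < (fourier 1 y : ℂ).re}} ≤
        μ.real {x | (1 / 8 : ℝ) ≤ 1 - (star u * (fourier n x : ℂ)).re} := by
      refine measureReal_mono ?_ (measure_ne_top _ _)
      intro x hx
      have e1 : 1 / 2 < (fourier 1 (n • x) : ℂ).re := hx
      rw [hf1] at e1
      have e2 := hkey _ (hnf x)
      show (1 / 8 : ℝ) ≤ 1 - (star u * (fourier n x : ℂ)).re
      nlinarith
    have h6 : min c1 c2 / 8 * Real.log (|(n : ℝ)| + 2) ^ (-κ) ≤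
        1 / 8 * (c1 * Real.log (|(n : ℝ)| + 2) ^ (-κ)) := by
      have := min_le_left c1 c2
      nlinarith
    linarith

/-- Let `p, q ≥ 2` be multiplicatively independent. There is `0 ≤ κ₀ < 1`, with `κ₀ = 0` if `p, q` are
composed of two coprime numbers (for instance if they are coprime), such that for EVERY atomless
probability measure `μ` on the circle, invariant under `x ↦ p x` and `x ↦ q x`:
(1) for all `B ≥ 1` and `κ > κ₀` either all dilates `n μ`, `n ≠ 0`, charge every nonempty open set `U` at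
least `c (log |n|) ^ (-κ B)`, or for one increasing sequence `m k` almost all points have
`‖m k x‖ ≤ exp (-(log (m k)) ^ B)` for all large `k`;
(2) if `κ₀ = 0` then either the dilates charge open sets at least `c (log |n|) ^ (-κ)` for EVERY
`κ > 0`, or for one increasing sequence `m k` almost all points have
`‖m k x‖ ≤ exp (-(log (m k)) ^ k)` for all large `k`;
(3) the first alternatives give `1 - |μ^(n)| ≥ c (log |n|) ^ (-κ)` for all `n ≠ 0`. -/
theorem result (p q : ℕ) (hp : 2 ≤ p) (hq : 2 ≤ q)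
    (hpq : Irrational (Real.log (p : ℝ) / Real.log (q : ℝ))) :
    ∃ κ₀ : ℝ, 0 ≤ κ₀ ∧ κ₀ < 1 ∧
      ((∃ u v a b c d : ℕ, 2 ≤ u ∧ 2 ≤ v ∧ Nat.Coprime u v ∧ p = u ^ a * v ^ b ∧
        q = u ^ c * v ^ d ∧ a * d ≠ b * c) → κ₀ = 0) ∧
      ∀ μ : Measure UnitAddCircle, IsProbabilityMeasure μ →
        MeasurePreserving (fun x : UnitAddCircle => p • x) μ μ →
        MeasurePreserving (fun x : UnitAddCircle => q • x) μ μ →
        (∀ x : UnitAddCircle, μ {x} = 0) →
        (∀ B κ : ℝ, 1 ≤ B → κ₀ < κ → Spread μ (κ * B) ∨ Thin μ (fun _ => B)) ∧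
        (κ₀ = 0 → (∀ κ : ℝ, 0 < κ → Spread μ κ) ∨ Thin μ (fun k => k)) ∧
        (∀ κ : ℝ, Spread μ κ → ∃ c : ℝ, 0 < c ∧ ∀ n : ℤ, n ≠ 0 →
          c * Real.log (|(n : ℝ)| + 2) ^ (-κ) ≤ 1 - ‖∫ x, (fourier n x : ℂ) ∂μ‖) := by
  obtain ⟨κ₀, h0, h1, h2, hmain⟩ :=
    Pool.Agent.Results.MP_96e181_an.FourierGrowth.result p q hp hq hpq
  refine ⟨κ₀, h0, h1, h2, ?_⟩
  intro μ hμ hμp hμq hat
  have hdata : ∀ U : Set UnitAddCircle, IsOpen U → U.Nonempty → ∀ κ : ℝ, κ₀ < κ →
      ∃ (d : ℕ) (C : ℝ), 1 ≤ d ∧ (∀ k : UnitAddCircle, (∀ i j : ℕ, (p ^ i * q ^ j) • k ∉ U) →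
        d • k = 0) ∧ 0 < C ∧ NC p q U κ C := by
    intro U hU hne κ hκ
    obtain ⟨⟨d, hd, hdU⟩, h3⟩ := hmain U hU hne
    obtain ⟨-, ⟨C, hC, h4, -⟩, -⟩ := h3 κ hκ
    exact ⟨d, C, hd, hdU, hC, h4⟩
  refine ⟨?_, ?_, fun κ h => fourier_of h⟩
  · intro B κ hB hκ
    by_cases hS : Spread μ (κ * B)
    · exact Or.inl hS
    · right
      unfold Spread at hS
      push Not at hS
      obtain ⟨U, hU, hne, hfail⟩ := hS
      obtain ⟨d, C, hd, hdU, hC, hNC⟩ := hdata U hU hne κ hκ
      exact seq_of (μ := μ) (e := fun _ m => Real.exp (-(Real.log m ^ B))) fun k N ε hε => fail_step hat hμp hμq hU hd hdU (by linarith) hC hNC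
        (by linarith) le_rfl hfail N hε
  · intro hκ0
    by_cases hS : ∀ κ : ℝ, 0 < κ → Spread μ κ
    · exact Or.inl hS
    · right
      unfold Spread at hS
      push Not at hS
      obtain ⟨κ', hκ', U, hU, hne, hfail⟩ := hS
      refine seq_of (μ := μ) (e := fun k m => Real.exp (-(Real.log m ^ (k : ℝ)))) fun k N ε hε => ?_
      obtain ⟨d, C, hd, hdU, hC, hNC⟩ := hdata U hU hne (κ' / (k + 1)) (by
        rw [hκ0]
        positivity)
      have hk : (0 : ℝ) ≤ k := Nat.cast_nonneg k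
      exact fail_step hat hμp hμq hU hd hdU (by positivity) hC hNC hk (by
        rw [div_mul_eq_mul_div, div_le_iff₀ (by positivity)]
        nlinarith) hfail N hε

end Pool.Agent.Results.MP_96e181_an.NonRigidOrThin
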