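import Pool.Agent.U798.GP.G6
import Pool.Agent.U212.GP.ALG
import Pool.Agent.U624.GP.KUM
import Pool.Agent.U873.GP.CHEV
import Pool.Agent.U390.GP.ODD
import Pool.Agent.U44.GP.TW
import Pool.Agent.U928.GP.TWL
import Pool.Agent.U750.GP.SMS
import Pool.Agent.U798.GP.Resm
import Pool.Agent.U941.GP.SWV
import Pool.Agent.U329.GP.DAV2
import Pool.Agent.U594.GP.SIEW
import Pool.Agent.U460.GP.PART
import Pool.Agent.U109.GP.REIX

/-!
# Furstenberg's conjecture is a statement about one integral, for all `p, q ≥ 2`

Let `p, q ≥ 2` be any integers and let `f` be a real function on the circle `ℝ / ℤ` which has bounded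
variation, or is continuous with an absolutely convergent Fourier series. Let `M` be the set of all
atomless `×p, ×q`-invariant probability measures. Group the nonzero integers into classes: `m` and `n` are
in the same class if `m / n` is in the group generated by `p` and `q`. Let `A(n)` be the sum of the Fourier
coefficients of `f` over the class of `n`.

* If all `A(n)` vanish, then `∫ f dμ = ∫ f dλ` for all `μ` in `M`.
* If one `A(n)` is not zero, then `M = {λ}` IF AND ONLY IF `∫ f dμ = ∫ f dλ` for all `μ` in `M`.

The second case holds for every `f` with `f(0+) ≠ ∫ f dλ`, in particular for the indicator functions of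
all finite unions of arcs of total length other than `0, 1`. So Furstenberg's conjecture (for all
multiplicatively independent `p, q`) is equivalent to one equation `∫ f dμ = ∫ f dλ` for each pair, where
the function `f = f(p, q)` can be chosen at will among the nontrivial ones, for instance the indicator
function of a fixed arc.

For primes `p ≠ q` this is `MP_e27144_an/OneIntegral`. In the general case the sum over the integers
composed of primes dividing `p q` which appears in Davenport's formula splits into infinitely many classes.
They are separated by power residue characters modulo primes: Chevalley's theorem on congruences between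
units, which is deduced here from Kummer theory and Chebotarev's theorem in the library.
-/

set_option autoImplicit false

open MeasureTheory Filter Topology
open Pool.Agent.U798.GP Pool.Agent.U798.GP.Fin

namespace Pool.Agent.Results.MP_96e181_an.OneIntegralAllPairs

theorem pk : Pk where
  chev := Pool.Agent.U873.GP.t_CHEV Pool.Agent.U212.GP.t_ALG Pool.Agent.U624.GP.t_KUM
  odd := Pool.Agent.U390.GP.t_ODD
  tw := Pool.Agent.U44.GP.t_TW
  twl := Pool.Agent.U928.GP.t_TWL
  sms := Pool.Agent.U750.GP.t_SMS
  resm := Pool.Agent.U798.GP.t_RESM'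
  swv := Pool.Agent.U941.GP.t_SWV
  dav2 := Pool.Agent.U329.GP.t_DAV2
  siew := Pool.Agent.U594.GP.t_SIEW
  part := Pool.Agent.U460.GP.t_PART
  reix := Pool.Agent.U109.GP.t_REIX

/-- Let `p, q ≥ 2`.
**(1)** Let `f` be a real function on the circle of bounded variation, or continuous with an absolutely
convergent Fourier series. If all the class sums of its Fourier coefficients vanish, then all atomless
`×p, ×q`-invariant probability measures `μ` satisfy `∫ f dμ = ∫ f dλ`; otherwise all of them satisfy this if and
only if all of them are Lebesgue measure. The second case holds if the right limit of `f` at `0` exists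
and is not `∫ f dλ`.
**(2)** Let `J` be a Borel set whose indicator function has bounded variation (for instance any finite union
of arcs), with Lebesgue measure `|J|` other than `0` and `1`. All these `μ` are Lebesgue measure if and only if
`μ(J) = |J|` for all of them.
**(3)** In particular this holds for the arcs `[α, β)`, real `0 ≤ α < β ≤ 1`, `β - α ≠ 1`.
**(4)** It is also equivalent to the invariance of all these `μ` under `x ↦ -x`.
**(5)** Let a nontrivial function `f(p, q)` be chosen for all `p, q ≥ 2`. Then the conjecture for all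
multiplicatively independent `p, q` (the statement `S05473`) holds if and only if
`∫ f(p, q) dμ = ∫ f(p, q) dλ` for all these `p, q` and `μ`. -/
theorem result :
    (∀ p q : ℕ, 2 ≤ p → 2 ≤ q →
      (∀ f : AddCircle (1 : ℝ) → ℝ, BVF f ∨ ACF f →
        (Triv p q f → Right p q f) ∧ (¬ Triv p q f → (Right p q f ↔ Conj p q)) ∧
        ∀ L : ℝ, Tendsto (fun t : ℝ => f (t : AddCircle (1 : ℝ))) (𝓝[>] 0) (𝓝 L) →
          L ≠ ∫ x, f x → ¬ Triv p q f) ∧
      (∀ J : Set (AddCircle (1 : ℝ)), MeasurableSet J → BVF (J.indicator fun _ => (1 : ℝ)) →
        (volume : Measure (AddCircle (1 : ℝ))).real J ≠ 0 →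
        (volume : Measure (AddCircle (1 : ℝ))).real J ≠ 1 →
        ((∀ μ : Measure (AddCircle (1 : ℝ)), Inv p q μ →
          μ.real J = (volume : Measure (AddCircle (1 : ℝ))).real J) ↔ Conj p q)) ∧
      (∀ (n : ℕ) (α β : Fin n → ℝ), (∀ i, 0 ≤ α i ∧ β i ≤ 1) →
        MeasurableSet (⋃ i, arc (α i) (β i)) ∧
          BVF ((⋃ i, arc (α i) (β i)).indicator fun _ => (1 : ℝ))) ∧
      (∀ α β : ℝ, 0 ≤ α → α < β → β ≤ 1 → β - α ≠ 1 →
        ((∀ μ : Measure (AddCircle (1 : ℝ)), Inv p q μ → μ.real (arc α β) = β - α) ↔ Conj p q)) ∧
      ((∀ μ : Measure (AddCircle (1 : ℝ)), Inv p q μ → μ.map (fun x => -x) = μ) ↔ Conj p q)) ∧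
    (∀ f : ℕ → ℕ → AddCircle (1 : ℝ) → ℝ,
      (∀ p q : ℕ, 2 ≤ p → 2 ≤ q → (BVF (f p q) ∨ ACF (f p q)) ∧ ¬ Triv p q (f p q)) →
      ((∀ p q : ℕ, 2 ≤ p → 2 ≤ q → Irrational (Real.log (p : ℝ) / Real.log (q : ℝ)) →
        ∀ μ : Measure UnitAddCircle, IsProbabilityMeasure μ → NoAtoms μ →
          MeasurePreserving (fun x : UnitAddCircle => p • x) μ μ →
          MeasurePreserving (fun x : UnitAddCircle => q • x) μ μ →
          μ = (volume : Measure UnitAddCircle)) ↔
        ∀ p q : ℕ, 2 ≤ p → 2 ≤ q → Irrational (Real.log (p : ℝ) / Real.log (q : ℝ)) →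
          Right p q (f p q))) :=
  main_of pk

end Pool.Agent.Results.MP_96e181_an.OneIntegralAllPairs
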