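import Mathlib
import Pool.Agent.U610.PR.Prod

/-! # Polynomial relations between invariant measures are rational

Let `p` be a prime which does not divide `q ≥ 2`, e.g. `p = 2`, `q = 3`. A polynomial map with an
irrational coefficient carries no part of an atomless `×m`-invariant measure to a part of a singular
measure invariant under `×p, ×q`. -/

set_option autoImplicit false

open MeasureTheory Filter Topology Set

namespace Pool.Agent.Results.MP_96e181_an.PolynomialRigidity

/-- `ν` is a probability measure on the circle which is singular to Lebesgue measure and invariant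
under `x ↦ p x` and `x ↦ q x`. -/
def SingularJoint (p q : ℕ) (ν : Measure UnitAddCircle) : Prop :=
  IsProbabilityMeasure ν ∧ ν ⟂ₘ (volume : Measure UnitAddCircle) ∧
    MeasurePreserving (fun x : UnitAddCircle => p • x) ν ν ∧
    MeasurePreserving (fun x : UnitAddCircle => q • x) ν ν

/-- The reduction modulo one of a real point. -/
def mod {ι : Type} (y : ι → ℝ) : ι → UnitAddCircle := fun i => ((y i : ℝ) : UnitAddCircle)

/-- The coordinates of every real lift of `μ`-almost every point of the torus are algebraically
independent over `ℚ`. -/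
def IndependentPoints {ι : Type} (μ : Measure (ι → UnitAddCircle)) : Prop :=
  ∀ᵐ x ∂μ, ∀ y : ι → ℝ, mod y = x → AlgebraicIndependent ℚ y

/-- **Polynomial rigidity.** Let `p` be a prime which does not divide `q ≥ 2`.

(1) Let `μ` be an atomless measure on the circle, conservative for `×m` for some `m ≥ 2` (e.g. an
invariant probability measure), `P` a measure on the line whose image modulo one is absolutely
continuous with respect to `μ`, and `f` a real polynomial with an irrational coefficient. Then the
image of `P` under `f` modulo one is singular to every singular `ν` invariant under `×p, ×q`.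

(2) The same for real polynomials in `d` variables and the product of `d` atomless `×m`-invariant
probability measures.

(3) For countably many such `ν_j` and a countable set `C` of reals there is one rational subspace
`V` of the line, σ-compact of Hausdorff dimension zero, which contains `1` and modulo one
`ν_j`-almost every point for each `j`, such that the following holds for all tori `T^ι`, all
`m ≥ 2` and all `μ` on `T^ι` conservative for `×m` with independent points. For `μ`-almost every `x`
and every real lift `y` of `x`: if a real polynomial `f` with coefficients in `C` has `f(y) ∈ V`,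
then the coefficients of `f` are rational and `f(a y + b) ∈ V` for all rational `a, b`. On the
circle moreover `y ^ j ∈ V` for all `j ≤ deg f`. -/
theorem result (p q : ℕ) (hp : p.Prime) (hq : 2 ≤ q) (hpq : ¬ p ∣ q) :
    (∀ (m : ℕ) (μ ν : Measure UnitAddCircle) (P : Measure ℝ) (f : Polynomial ℝ), 2 ≤ m →
      Conservative (fun x : UnitAddCircle => m • x) μ → (∀ x, μ {x} = 0) →
      SingularJoint p q ν → P.map (fun y : ℝ => (y : UnitAddCircle)) ≪ μ →
      (∃ n, Irrational (f.coeff n)) →
      (P.map fun y : ℝ => ((f.eval y : ℝ) : UnitAddCircle)) ⟂ₘ ν) ∧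
    (∀ (d m : ℕ) (μ : Fin d → Measure UnitAddCircle) (ν : Measure UnitAddCircle)
      (P : Measure (Fin d → ℝ)) (f : MvPolynomial (Fin d) ℝ), 2 ≤ m →
      (∀ i, IsProbabilityMeasure (μ i)) → (∀ i x, μ i {x} = 0) →
      (∀ i, MeasurePreserving (fun x : UnitAddCircle => m • x) (μ i) (μ i)) →
      SingularJoint p q ν → P.map mod ≪ Measure.pi μ → (∃ n, Irrational (f.coeff n)) →
      (P.map fun y => ((MvPolynomial.eval y f : ℝ) : UnitAddCircle)) ⟂ₘ ν) ∧
    ∀ (ν : ℕ → Measure UnitAddCircle) (C : Set ℝ), (∀ j, SingularJoint p q (ν j)) →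
      C.Countable → ∃ V : Submodule ℚ ℝ, (1 : ℝ) ∈ V ∧ IsSigmaCompact (V : Set ℝ) ∧
        dimH (V : Set ℝ) = 0 ∧ (∀ j, ∀ᵐ z ∂(ν j), ∃ r ∈ V, ((r : ℝ) : UnitAddCircle) = z) ∧
        (∀ (ι : Type) (_ : Countable ι) (m : ℕ) (μ : Measure (ι → UnitAddCircle)), 2 ≤ m →
          Conservative (fun x : ι → UnitAddCircle => m • x) μ → IndependentPoints μ →
          ∀ᵐ x ∂μ, ∀ y : ι → ℝ, mod y = x → ∀ f : MvPolynomial ι ℝ,
            (∀ n ∈ f.support, f.coeff n ∈ C) → MvPolynomial.eval y f ∈ V →
              (∀ n, ∃ r : ℚ, f.coeff n = r) ∧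
                ∀ (a : ℚ) (b : ι → ℚ), MvPolynomial.eval (fun i => (a : ℝ) * y i + b i) f ∈ V) ∧
        ∀ (m : ℕ) (μ : Measure UnitAddCircle), 2 ≤ m →
          Conservative (fun x : UnitAddCircle => m • x) μ → (∀ x, μ {x} = 0) →
          ∀ᵐ x ∂μ, ∀ y : ℝ, ((y : ℝ) : UnitAddCircle) = x → ∀ f : Polynomial ℝ,
            (∀ n ∈ f.support, f.coeff n ∈ C) → f.eval y ∈ V →
              (∀ n, ∃ r : ℚ, f.coeff n = r) ∧ ∀ j ≤ f.natDegree, y ^ j ∈ V := by
  refine ⟨?_, ?_, ?_⟩
  · rintro m μ ν P f hm hcons hna ⟨hν, hs, hνp, hνq⟩ hP hf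
    exact Pool.Agent.U610.PR.singular_image_one hp hq hpq hν hνp hνq hs hm hcons hna hP hf
  · rintro d m μ ν P f hm hprob hna hinv ⟨hν, hs, hνp, hνq⟩ hP hf
    have hmp : MeasurePreserving (fun x : Fin d → UnitAddCircle => m • x)
        (Measure.pi μ) (Measure.pi μ) :=
      measurePreserving_pi μ μ hinv
    exact Pool.Agent.U610.PR.singular_image hp hq hpq hν hνp hνq hs hm hmp.conservative
      (Pool.Agent.U610.PR.independent_pi μ hna) hP hf
  · intro ν C hν hC
    obtain ⟨V, W, hCW, hWc, h1, hσ, hdim, hWV, hνV⟩ :=
      Pool.Agent.U610.PR.exists_space hp hq hpq ν (fun j => (hν j).1)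
        (fun j => ⟨(hν j).2.2.1, (hν j).2.2.2⟩) (fun j => (hν j).2.1) hC
    refine ⟨V, h1, hσ, hdim, fun j => ?_, ?_, ?_⟩
    · rw [ae_iff]
      convert hνV j using 3 with z
      ext z
      simp
    · intro ι _ m μ hm hcons hind
      have hind' : ∀ᵐ x ∂μ, ∀ y : ι → ℝ, (∀ i, ((y i : ℝ) : UnitAddCircle) = x i) →
          AlgebraicIndependent ℚ y := by
        have h : ∀ᵐ x ∂μ, ∀ y : ι → ℝ, mod y = x → AlgebraicIndependent ℚ y := hind
        filter_upwards [h] with x hx y hy using hx y (funext hy)
      filter_upwards [Pool.Agent.U610.PR.ae_values (W := W)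
        (Pool.Agent.U125.PS.meas_sigma hσ) hm hcons hind'] with x hx y hy f hf hv
      have hfW : ∀ n, f.coeff n ∈ W := by
        intro n
        by_cases hn : n ∈ f.support
        · exact hCW (hf n hn)
        · rw [MvPolynomial.notMem_support_iff.1 hn]
          exact W.zero_mem
      obtain ⟨h2, h3⟩ := hx y (fun i => congrFun hy i) f hfW hv
      exact ⟨fun n => hWV _ (hfW n) (h2 n), h3⟩
    · intro m μ hm hcons hna
      filter_upwards [Pool.Agent.U610.PR.ae_values_one (W := W) h1
        (Pool.Agent.U125.PS.meas_sigma hσ) hWV hm hcons hna] with x hx y hy f hf hv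
      have hfW : ∀ n, f.coeff n ∈ W := by
        intro n
        by_cases hn : n ∈ f.support
        · exact hCW (hf n hn)
        · rw [Polynomial.notMem_support_iff.1 hn]
          exact W.zero_mem
      exact hx y hy f hfW hv

end Pool.Agent.Results.MP_96e181_an.PolynomialRigidity
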